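import Pool.Agent.FS.FiniteBelow.Form

/-! Below five thirds all conjugates of the global dimension are bounded. -/

namespace Pool.Agent.FS.FiniteBelow

open Finset Polynomial Pool.Agent.Lib.MP_152d63_al

theorem seq_inj (f : ℤ → ℝ) (hsh : ∀ i j k, f i = f j → f (i + k) = f (j + k)) (k : ℕ)
    (hk : ∀ j : ℤ, 0 < j → j < k → f j ≠ f 0) (r : ℤ) (i j : Fin k)
    (e : f (r + (i : ℕ)) = f (r + (j : ℕ))) : i = j := by
  have hi := i.2
  have hj := j.2
  rcases lt_trichotomy (i : ℕ) j with h | h | h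
  · have e1 := hsh _ _ (-(r + (i : ℕ))) e
    rw [add_neg_cancel] at e1
    exact absurd e1.symm (hk _ (by omega) (by omega))
  · exact Fin.ext h
  · have e1 := hsh _ _ (-(r + (j : ℕ))) e
    rw [add_neg_cancel] at e1
    exact absurd e1 (hk _ (by omega) (by omega))

theorem seq_bound (f : ℤ → ℝ) (hsh : ∀ i j k, f i = f j → f (i + k) = f (j + k))
    (hB : ∀ (k : ℕ) (r : ℤ), (∀ i j : Fin k, f (r + (i : ℕ)) = f (r + (j : ℕ)) → i = j) →
      ∑ i : Fin k, f (r + (i : ℕ)) ≤ 1)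
    (hH : ∀ (k : ℕ) (r : ℤ), (∀ i j : Fin k, f (r + (i : ℕ)) = f (r + (j : ℕ)) → i = j) →
      ∀ v : Fin k → ℝ,
        0 ≤ (∑ a, v a ^ 2) / 2 + ∑ a, ∑ b, v a * v b * f (r + (a : ℕ) + (b : ℕ)))
    (h0 : 3 / 5 < f 0) : 1 / 64 ≤ f 1 := by
  by_cases h1 : f 1 = f 0
  · linarith
  have k1 := hH 2 (-1) (seq_inj f hsh 2 (fun j a b => by
    obtain rfl : j = 1 := by omega
    exact h1) _) ![1, -1]
  norm_num [Fin.sum_univ_succ] at k1
  by_cases h2 : f 2 = f 0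
  · have e := hsh _ _ (-1) h2
    norm_num at e
    linarith
  have i3 := seq_inj f hsh 3 (fun j a b => by
    obtain rfl | rfl : j = 1 ∨ j = 2 := by omega
    exacts [h1, h2])
  by_cases h3 : f 3 = f 0
  · have e := hsh _ _ 1 h3
    have b := hB 3 0 (i3 _)
    have k := hH 3 0 (i3 _) ![1, 3, -4]
    norm_num [Fin.sum_univ_succ] at e b k
    linarith
  have i4 := seq_inj f hsh 4 (fun j a b => by
    obtain rfl | rfl | rfl : j = 1 ∨ j = 2 ∨ j = 3 := by omega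
    exacts [h1, h2, h3])
  by_cases h4 : f 4 = f 0
  · have e1 := hsh _ _ 1 h4
    have e2 := hsh _ _ 2 h4
    have e3 := hsh _ _ 3 h4
    have b := hB 4 0 (i4 _)
    have k := hH 4 0 (i4 _) ![1, 4, -1, -4]
    have k' := hH 4 1 (i4 _) ![1, -1, 1, -1]
    norm_num [Fin.sum_univ_succ] at e1 e2 e3 b k k'
    linarith
  have i5 := seq_inj f hsh 5 (fun j a b => by
    obtain rfl | rfl | rfl | rfl : j = 1 ∨ j = 2 ∨ j = 3 ∨ j = 4 := by omega
    exacts [h1, h2, h3, h4])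
  have b := hB 5 (-2) (i5 _)
  have k := hH 3 (-2) (i3 _) ![1, 0, -1]
  norm_num [Fin.sum_univ_succ] at b k
  linarith

variable {ι κ : Type} [Fintype ι] [Fintype κ] {o : ι} {N : ι → ι → ι → ℕ} {d : ι → ℂ}
  {n : κ → ι → ℕ} {θ : κ → ℂ} {m : (ι → ℂ) → κ → ℕ}

theorem conj_le (h : Dat o N d n θ m) (h53 : nF d < 5 / 3) (σ : RingAut ℂ) : cj d σ ≤ 64 := by
  have tr : ∀ i k : ℤ, RingEquiv.trans (σ ^ i) (σ ^ k) = σ ^ (i + k) := fun i k => by
    rw [add_comm, zpow_add]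
    rfl
  have key := seq_bound (fun j => (cj d (σ ^ j))⁻¹) (fun i j k e => by
      have e1 : cj d (σ ^ i) = cj d (σ ^ j) := inv_injective e
      have e2 := h.hd.map_cj (σ ^ i) (σ ^ k)
      rw [e1, h.hd.map_cj, tr, tr] at e2
      exact congrArg _ (Complex.ofReal_injective e2).symm)
    (fun k r hi => two_bessel univ (fun (a : Fin k) i => (σ ^ (r + (a : ℕ))) (d i))
      (fun a _ => h.hd.map _) fun a _ b _ hab e => hab (hi a b (congrArg (fun χ => (nF χ)⁻¹) e)))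
    (fun k r hi v => by
      have e : ∀ τ : RingAut ℂ, cj (fun i => (σ ^ r) (d i)) τ = cj d (RingEquiv.trans (σ ^ r) τ) :=
        fun _ => rfl
      have hf := form (dat_map h (σ ^ r)) (fun a : Fin k => σ ^ ((a : ℕ) : ℤ)) (fun a b hab => by
        rw [e, e, tr, tr] at hab
        exact hi a b (congrArg _ hab)) v
      refine hf.trans_eq (congrArg _ (sum_congr rfl fun a _ => sum_congr rfl fun b _ => ?_))
      rw [e, tr, tr, add_comm ((b : ℕ) : ℤ), ← add_assoc])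
    (by
      rw [zpow_zero]
      change 3 / 5 < (nF d)⁻¹
      rw [lt_inv_comm₀ (by norm_num) h.hd.nF_pos]
      linarith)
  rw [zpow_one, one_div, inv_le_inv₀ (by norm_num) (h.hd.cj_pos σ)] at key
  exact key

theorem root_cj (hd : GoodChar o N d) {w : ℂ} (hw : aeval w (minpoly ℚ ((nF d : ℝ) : ℂ)) = 0) :
    ∃ σ, (cj d σ : ℂ) = w := by
  have hz : IsIntegral ℚ ((nF d : ℝ) : ℂ) := hd.isIntegral_nF.tower_top
  have hwa : IsAlgebraic ℚ w := ⟨_, minpoly.ne_zero hz, hw⟩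
  have : IsAlgClosure ℚ (algebraicClosure ℚ ℂ) := algebraicClosure.isAlgClosure ℚ ℂ
  have : IsGalois ℚ (algebraicClosure ℚ ℂ) := IsAlgClosure.isGalois ℚ _
  let z' : algebraicClosure ℚ ℂ := ⟨_, mem_algebraicClosure_iff.2 hz.isAlgebraic⟩
  let w' : algebraicClosure ℚ ℂ := ⟨w, mem_algebraicClosure_iff.2 hwa⟩
  have e1 : minpoly ℚ ((nF d : ℝ) : ℂ) = minpoly ℚ z' :=
    minpoly.algebraMap_eq (A := ℚ) (algebraMap (algebraicClosure ℚ ℂ) ℂ).injective z'
  have e2 : aeval w' (minpoly ℚ z') = 0 := by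
    apply (algebraMap (algebraicClosure ℚ ℂ) ℂ).injective
    rw [← aeval_algebraMap_apply, ← e1, map_zero]
    exact hw
  obtain ⟨s, hs⟩ := minpoly.exists_algEquiv_of_root' (Algebra.IsAlgebraic.isAlgebraic z') e2
  obtain ⟨σ, hσ⟩ := n_lift s
  refine ⟨σ, ?_⟩
  rw [← hd.map_nF]
  exact (hσ z').trans (congrArg Subtype.val hs)

theorem small_finite : {z : ℂ | IsIntegral ℤ z ∧ (minpoly ℚ z).natDegree ≤ 4 ∧
    ∀ w : ℂ, aeval w (minpoly ℚ z) = 0 → ‖w‖ ≤ 64}.Finite := by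
  classical
  let C := Nat.ceil (max (64 : ℝ) 1 ^ 4 * (Nat.choose 4 (4 / 2)))
  refine (bUnion_roots_finite (algebraMap ℤ ℂ) 4 (Set.finite_Icc (-C : ℤ) C)).subset
    fun x hx => ?_
  simp_rw [Set.mem_iUnion]
  have hm := minpoly.isIntegrallyClosed_eq_field_fractions' ℚ hx.1
  have hq : IsIntegral ℚ x := hx.1.tower_top
  refine ⟨_, ⟨?_, fun i => ?_⟩, mem_rootSet.2 ⟨minpoly.ne_zero hx.1, minpoly.aeval ℤ x⟩⟩
  · rw [← (minpoly.monic hx.1).natDegree_map (algebraMap ℤ ℚ), ← hm]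
    exact hx.2.1
  have hc := coeff_bdd_of_roots_le (B := 64) (d := 4) (algebraMap ℚ ℂ) (minpoly.monic hq)
    (IsAlgClosed.splits _) hx.2.1 (fun z hz => hx.2.2 z (by
      rw [mem_roots (Polynomial.map_ne_zero (minpoly.ne_zero hq)), IsRoot.def,
        eval_map_algebraMap] at hz
      exact hz)) i
  rw [Set.mem_Icc, ← abs_le, ← @Int.cast_le ℝ]
  refine (Eq.trans_le ?_ hc).trans (Nat.le_ceil _)
  rw [coeff_map, hm, coeff_map, eq_intCast, map_intCast, Complex.norm_intCast, Int.cast_abs]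

theorem mem_small (h : Dat o N d n θ m) (h53 : nF d < 5 / 3) :
    IsIntegral ℤ ((nF d : ℝ) : ℂ) ∧ (minpoly ℚ ((nF d : ℝ) : ℂ)).natDegree ≤ 4 ∧
      ∀ w : ℂ, aeval w (minpoly ℚ ((nF d : ℝ) : ℂ)) = 0 → ‖w‖ ≤ 64 := by
  refine ⟨h.hd.isIntegral_nF, ?_, fun w hw => ?_⟩
  · have hmp : minpoly ℚ ((nF d : ℝ) : ℂ) = minpoly ℚ (nF d) :=
      minpoly.algebraMap_eq (A := ℚ) (algebraMap ℝ ℂ).injective (nF d)
    have hk := h.degree.trans_lt h53
    rw [div_lt_iff₀ (by positivity)] at hk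
    rw [hmp]
    by_contra hc
    have : (5 : ℝ) ≤ (minpoly ℚ (nF d)).natDegree := by exact_mod_cast not_le.1 hc
    linarith
  · obtain ⟨σ, rfl⟩ := root_cj h.hd hw
    rw [Complex.norm_real, Real.norm_of_nonneg (h.hd.cj_pos σ).le]
    exact conj_le h h53 σ

end Pool.Agent.FS.FiniteBelow
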