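import Pool.Agent.Lib.MP_152d63_al.Two.Dat

/-! The quadratic form on the Galois conjugates of the unit object of the centre. -/

namespace Pool.Agent.FS.FiniteBelow

open Finset Polynomial Pool.Agent.Lib.MP_152d63_al

theorem form_real {κ A : Type} [Fintype κ] [Fintype A] [DecidableEq A] (P : A → κ → ℝ)
    (t : κ → ℝ) (M : A → A → ℝ) (Y : A → κ) (hY : Function.Injective Y)
    (ht : ∀ Z a, P a Z ≠ 0 → -1 ≤ t Z)
    (h1 : ∀ a b, ∑ Z, P a Z * P b Z = if a = b then 1 else 0)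
    (h2 : ∀ a b, ∑ Z, t Z * P a Z * P b Z = M a b) (h3 : ∀ b, t (Y b) = 1)
    (h4 : ∀ a b, P a (Y b) = M a b) (v : A → ℝ) :
    0 ≤ (∑ a, v a ^ 2) / 2 + ∑ a, ∑ b, v a * v b * M a b := by
  classical
  have hnn : ∀ Z, 0 ≤ (∑ a, v a * P a Z) ^ 2 * (1 + t Z) := fun Z => by
    by_cases hy : ∀ a, P a Z = 0
    · simp [hy]
    · push Not at hy
      obtain ⟨a, ha⟩ := hy
      have := ht Z a ha
      have : 0 ≤ 1 + t Z := by linarith
      positivity
  have e1 : ∑ b, (∑ a, v a * P a (Y b)) ^ 2 * (1 + t (Y b)) ≤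
      ∑ Z, (∑ a, v a * P a Z) ^ 2 * (1 + t Z) := by
    rw [← sum_image (s := univ) (g := Y) (f := fun Z => (∑ a, v a * P a Z) ^ 2 * (1 + t Z))
      fun a _ b _ h => hY h]
    exact sum_le_sum_of_subset_of_nonneg (subset_univ _) fun Z _ _ => hnn Z
  have e2 : ∑ Z, (∑ a, v a * P a Z) ^ 2 * (1 + t Z) =
      ∑ a, ∑ b, v a * v b * (∑ Z, P a Z * P b Z + ∑ Z, t Z * P a Z * P b Z) := by
    simp only [sq, sum_mul_sum, sum_mul, ← sum_add_distrib, mul_sum]
    rw [sum_comm]
    refine sum_congr rfl fun a _ => ?_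
    rw [sum_comm]
    exact sum_congr rfl fun b _ => sum_congr rfl fun Z _ => by ring
  have e3 : ∑ a, ∑ b, v a * v b * (∑ Z, P a Z * P b Z + ∑ Z, t Z * P a Z * P b Z) =
      ∑ a, v a ^ 2 + ∑ a, ∑ b, v a * v b * M a b := by
    simp only [h1, h2, mul_add, sum_add_distrib, mul_ite, mul_one, mul_zero, sum_ite_eq,
      mem_univ, if_true, sq]
  have e4 : ∑ b, (-2 * (v b * ∑ a, v a * M a b) - v b ^ 2 / 2) ≤
      ∑ b, (∑ a, v a * P a (Y b)) ^ 2 * (1 + t (Y b)) := by
    refine sum_le_sum fun b _ => ?_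
    simp only [h3, h4]
    nlinarith [sq_nonneg (2 * (∑ a, v a * M a b) + v b)]
  have e5 : ∑ b, v b * ∑ a, v a * M a b = ∑ a, ∑ b, v a * v b * M a b := by
    simp only [mul_sum]
    rw [sum_comm]
    exact sum_congr rfl fun a _ => sum_congr rfl fun b _ => by ring
  rw [sum_sub_distrib, ← mul_sum, e5, ← sum_div] at e4
  rw [e2, e3] at e1
  linarith

variable {ι κ : Type} [Fintype ι] [Fintype κ] {o : ι} {N : ι → ι → ι → ℕ} {d : ι → ℂ}
  {n : κ → ι → ℕ} {θ : κ → ℂ} {m : (ι → ℂ) → κ → ℕ}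

/-- The data of the centre can be conjugated. -/
theorem dat_map (h : Dat o N d n θ m) (ρ : ℂ ≃+* ℂ) :
    Dat o N (fun i => ρ (d i)) n (fun Y => ρ (θ Y)) (fun χ => m fun i => ρ.symm (χ i)) where
  hd := h.hd.map ρ
  hθ Y hY := by
    rw [nY_map] at hY
    obtain ⟨r, hr, e⟩ := h.hθ Y fun h0 => hY (by rw [h0, map_zero])
    exact ⟨r, hr, by rw [← map_pow, e, map_one]⟩
  hm1 χ g := h.hm1 _ (g.map ρ.symm)
  hm0 χ ψ g g' hne := h.hm0 _ _ (g.map ρ.symm) (g'.map ρ.symm) fun e =>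
    hne (funext fun i => ρ.symm.injective (congrFun e i))
  hmθ χ g Y hY := by rw [h.hmθ _ (g.map ρ.symm) Y hY, map_one]
  hS j := by
    have e := congrArg ρ (h.hS j)
    simpa only [map_sum, map_mul, map_natCast, map_pow, ← nY_map] using e
  hT ψ := by
    have e := congrArg ρ (h.hT fun i => ρ.symm (ψ i))
    simpa only [map_sum, map_mul, map_pow, ← nY_map, RingEquiv.apply_symm_apply] using e
  hX χ g j := by
    have e := congrArg ρ (h.hX _ (g.map ρ.symm) j)
    simpa only [map_sum, map_mul, map_natCast, map_pow, ← nY_map,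
      RingEquiv.apply_symm_apply] using e

theorem gram (h : Dat o N d n θ m) (ψ : ι → ℂ) :
    ∑ Y, nY n ψ Y * nY n d Y = (nF d : ℂ) * ∑ j, ψ j * d j := by
  rw [← n_weight, Finset.mul_sum]
  exact Finset.sum_congr rfl fun j _ => by rw [h.hS, ← h.hd.nF_eq]; ring

theorem form (h : Dat o N d n θ m) {A : Type} [Fintype A] [DecidableEq A] (s : A → ℂ ≃+* ℂ)
    (hs : ∀ a b, cj d (s a) = cj d (s b) → a = b) (v : A → ℝ) :
    0 ≤ (∑ a, v a ^ 2) / 2 + ∑ a, ∑ b, v a * v b * (cj d ((s b).trans (s a)))⁻¹ := by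
  have g : ∀ a, GoodChar o N fun i => s a (d i) := fun a => h.hd.map _
  have hne : ∀ a b, a ≠ b → (fun i => s a (d i)) ≠ fun i => s b (d i) := fun a b hab e =>
    hab (hs a b (congrArg nF e))
  have p : ∀ σ, ((cj d σ : ℝ) : ℂ) ≠ 0 := fun σ => by exact_mod_cast (h.hd.cj_pos σ).ne'
  choose Y y1 y2 y3 using fun b => h.col (g b)
  have tw : ∀ a b, ∑ Z, θ Z * nY n (fun i => s a (d i)) Z * nY n (fun i => s b (d i)) Z =
      (cj d (s a) : ℂ) * (cj d (s b) : ℂ) / (cj d ((s b).trans (s a)) : ℂ) := fun a b => by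
    rw [eq_div_iff (p _), h.pair]
  refine form_real (fun a Z => (nY n (fun i => s a (d i)) Z).re / cj d (s a))
    (fun Z => (θ Z).re) _ Y (fun a b e => ?_) (fun Z a ha => ?_) (fun a b => ?_) (fun a b => ?_)
    (fun b => ?_) (fun a b => ?_) v
  · by_contra hab
    have e0 := (Finset.sum_eq_zero_iff.mp (h.hm0 _ _ (g a) (g b) (hne a b hab))) (Y a)
      (Finset.mem_univ _)
    rw [y1 a, e, y1 b] at e0
    simp at e0
  · have h0 : nY n d Z ≠ 0 := fun h0 => ha (by rw [nY_map, h0]; simp)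
    obtain ⟨r, hr, e⟩ := h.hθ Z h0
    have := Complex.abs_re_le_norm (θ Z)
    rw [Complex.norm_eq_one_of_pow_eq_one e hr.ne'] at this
    exact (abs_le.mp this).1
  · apply Complex.ofReal_injective
    have e := gram (dat_map h (s b)) fun i => s a (d i)
    change _ = (cj d (s b) : ℂ) * _ at e
    have e' : ∑ Z, nY n (fun i => s a (d i)) Z / (cj d (s a) : ℂ) *
        (nY n (fun i => s b (d i)) Z / (cj d (s b) : ℂ)) =
        (∑ j, s a (d j) * s b (d j)) / (cj d (s a) : ℂ) := by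
      simp only [div_mul_div_comm]
      rw [← sum_div, e]
      field_simp [p]
    push_cast
    simp only [nY_re (g _) n]
    rw [e']
    split_ifs with hab
    · subst hab
      rw [div_eq_iff (p _), Complex.ofReal_one, one_mul]
      exact (sum_congr rfl fun j _ => (sq _).symm).trans (g a).nF_eq.symm
    · rw [(g a).orth (g b) (hne a b hab), zero_div, Complex.ofReal_zero]
  · refine n_re_sum _ _ _ _ ?_
    push_cast
    simp only [nY_re (g _) n]
    have e' : ∑ Z, θ Z * (nY n (fun i => s a (d i)) Z / (cj d (s a) : ℂ)) *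
        (nY n (fun i => s b (d i)) Z / (cj d (s b) : ℂ)) =
        (∑ Z, θ Z * nY n (fun i => s a (d i)) Z * nY n (fun i => s b (d i)) Z) /
          ((cj d (s a) : ℂ) * (cj d (s b) : ℂ)) := by
      rw [sum_div]
      exact sum_congr rfl fun Z _ => by ring
    rw [e', tw]
    field_simp [p]
  · show (θ (Y b)).re = 1
    rw [h.hmθ _ (g b) (Y b) (by rw [y1 b]; exact one_ne_zero), Complex.one_re]
  · apply Complex.ofReal_injective
    have e := y3 b fun i => s a (d i)
    change _ = (cj d (s b) : ℂ) * _ at e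
    rw [tw] at e
    push_cast
    rw [nY_re (g _) n]
    have pa := p (s a)
    have pb := p (s b)
    have pc := p ((s b).trans (s a))
    field_simp at e ⊢
    linear_combination -e

end Pool.Agent.FS.FiniteBelow
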